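import Pool.Agent.HL2.Main

/-!
# The Hain-Looijenga pairing is degenerate in genus twelve

`Theory` is the data: Chow rings of the objects of a category with finite products, with their
formal laws, and the moduli spaces of stable curves with their tautological morphisms. `Formal` and
`Known` list the properties of the moduli spaces of stable curves that are used; each published
theorem is named in the documentation of its field. `Klein` and `Klein.Facts` are the spaces of
admissible covers of genus zero curves whose group is the Klein four-group, and the standard facts
about them: the description of the boundary. It follows that the pairing of `R^11` of the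
moduli space of smooth curves of genus twelve with the tautological classes with compact support of
codimension 22 is not perfect. So the answers to Q1 and Q2 are negative.

The class: `xi` glues two curves of genus one with eleven markings along the eleven pairs of
markings of the same name; `x` is the push-forward under `xi` of the diagonal minus its tautological
(Kuenneth) part. Proved here: `x` vanishes on every boundary divisor, is orthogonal to all
tautological classes, is not zero, and is itself tautological, in the Chow ring. The last point is
proved with two families of pencils on spaces of Klein four-group covers, and also gives that the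
loci of elliptic curves with pairs of points that differ by a point of order two are tautological.
-/

open CategoryTheory MonoidalCategory CartesianMonoidalCategory

namespace Pool.Agent.Results.MP_5e58bb_ag.GenusTwelve

open Pool.Agent.HL2

universe u v w

/-- The Hain-Looijenga pairing `R^11(M_12) x R_c^22(M_12) -> Q` is not perfect, and Q1 and Q2 have
negative answers. -/
theorem result {C : Type u} [Category.{v} C] [CartesianMonoidalCategory C]
    {A : C → CommAlgCat.{w} ℚ} (T : Theory A) (F : T.Formal) (K : T.Known) (Q : T.Klein)
    (KQ : Q.Facts) :
    (∃ x, T.Rc 12 x ∧ T.IsGr 22 x ∧ x ≠ ze ∧
      ∀ a, T.Taut 12 (Fin 0) a → T.dg (mu a x) = 0) ∧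
    ¬ T.Perfect 12 11 22 ∧ ¬ T.Q1 ∧ ¬ T.Q2 :=
  ⟨T.exists_Rc F K KQ, T.not_perfect F K KQ,
    fun h => T.not_perfect F K KQ (h 12 11 22 (by norm_num) rfl),
    fun h => T.not_perfect F K KQ (h.1 12 11 22 (by norm_num) rfl)⟩

end Pool.Agent.Results.MP_5e58bb_ag.GenusTwelve
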